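import Mathlib

/-!
# Three commuting unital CP maps without any dilation

`H = ℂ⁴`, `𝒜 = B(H)`, `T_i a = 1/2 (U_{i,0}* a U_{i,0} + U_{i,1}* a U_{i,1})`, where the `U_{i,k}` are
six permutation matrices (even permutations of four points).  The maps `T_0, T_1, T_2` commute, are
unital, normal and completely positive, and the associated semigroup over `ℕ³` has no dilation.
-/

set_option autoImplicit false
set_option linter.unusedSectionVars false

open scoped InnerProductSpace ComplexOrder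

namespace Pool.Agent.Results.MP_0a86e9_an.NoDilation

/-! ### Definitions -/

section defs

variable {H K : Type*} [NormedAddCommGroup H] [InnerProductSpace ℂ H] [CompleteSpace H]
  [NormedAddCommGroup K] [InnerProductSpace ℂ K] [CompleteSpace K]

/-- the von Neumann algebra of all bounded operators on `H` -/
noncomputable def allOps (H : Type*) [NormedAddCommGroup H] [InnerProductSpace ℂ H]
    [CompleteSpace H] : VonNeumannAlgebra H where
  toStarSubalgebra := ⊤
  centralizer_centralizer' :=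
    Set.Subset.antisymm (fun _ _ => trivial) (fun a _ _ hb => (hb a trivial).symm)

/-- `T` (restricted to the von Neumann algebra `𝒜`) is a unital normal contractive completely
positive map of `𝒜`. Complete positivity: `∑ ⟪x_i, T (a_i* a_j) x_j⟫ ≥ 0` for all `a_i ∈ 𝒜` and all
vectors `x_i`. Normality: every matrix coefficient `a ↦ ⟪x, T a y⟫` is a normal functional
`a ↦ ∑ ⟪ξ_n, a η_n⟫` with square summable `ξ_n`, `η_n`. -/
structure IsUnitalNormalCP (𝒜 : VonNeumannAlgebra H) (T : (H →L[ℂ] H) → (H →L[ℂ] H)) : Prop where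
  maps : ∀ a ∈ 𝒜, T a ∈ 𝒜
  add : ∀ a ∈ 𝒜, ∀ b ∈ 𝒜, T (a + b) = T a + T b
  smul : ∀ c : ℂ, ∀ a ∈ 𝒜, T (c • a) = c • T a
  one : T 1 = 1
  contractive : ∀ a ∈ 𝒜, ‖T a‖ ≤ ‖a‖
  cp : ∀ (n : ℕ) (a : Fin n → H →L[ℂ] H), (∀ i, a i ∈ 𝒜) → ∀ x : Fin n → H,
    0 ≤ ∑ i, ∑ j, ⟪x i, T (star (a i) * a j) (x j)⟫_ℂ
  normal : ∀ x y : H, ∃ ξ η : ℕ → H, (Summable fun n => ‖ξ n‖ ^ 2) ∧
    (Summable fun n => ‖η n‖ ^ 2) ∧ ∀ a ∈ 𝒜, HasSum (fun n => ⟪ξ n, a (η n)⟫_ℂ) ⟪x, T a y⟫_ℂ

/-- the semigroup over `ℕ³` of three maps: `T_s = T_0^(s 0) T_1^(s 1) T_2^(s 2)` -/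
def semi (T : Fin 3 → (H →L[ℂ] H) → (H →L[ℂ] H)) (s : Fin 3 → ℕ) (a : H →L[ℂ] H) : H →L[ℂ] H :=
  (T 0)^[s 0] ((T 1)^[s 1] ((T 2)^[s 2] a))

/-- `V a V*` : the operator `a` on the subspace `H` of `K`, extended by zero -/
noncomputable def embed (V : H →ₗᵢ[ℂ] K) (a : H →L[ℂ] H) : K →L[ℂ] K :=
  V.toContinuousLinearMap ∘L a ∘L (ContinuousLinearMap.adjoint V.toContinuousLinearMap)

/-- `V* b V` : the compression of `b` to the subspace `H` of `K` -/
noncomputable def compress (V : H →ₗᵢ[ℂ] K) (b : K →L[ℂ] K) : H →L[ℂ] H :=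
  (ContinuousLinearMap.adjoint V.toContinuousLinearMap) ∘L b ∘L V.toContinuousLinearMap

/-- `(p, K, ℬ, θ)` is a dilation of the semigroup over `ℕ³` of `T_0, T_1, T_2`, where `H` is a
subspace of `K` by means of the isometry `V` and `p = V V*`: the von Neumann algebra `𝒜` is the
corner `p ℬ p` of `ℬ` (`corner₁`, `corner₂`), every `θ s` is a (not necessarily unital)
`*`-endomorphism of `ℬ`, `θ` is a semigroup over `ℕ³`, and `T_s a = p (θ s a) p` for all `s` and all
`a ∈ 𝒜`. Normality of the `θ s` is not even required. -/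
structure IsDilation (𝒜 : VonNeumannAlgebra H) (T : Fin 3 → (H →L[ℂ] H) → (H →L[ℂ] H))
    (V : H →ₗᵢ[ℂ] K) (ℬ : VonNeumannAlgebra K)
    (θ : (Fin 3 → ℕ) → (K →L[ℂ] K) → (K →L[ℂ] K)) : Prop where
  corner₁ : ∀ a ∈ 𝒜, embed V a ∈ ℬ
  corner₂ : ∀ b ∈ ℬ, compress V b ∈ 𝒜
  maps : ∀ s, ∀ b ∈ ℬ, θ s b ∈ ℬ
  add : ∀ s, ∀ b ∈ ℬ, ∀ c ∈ ℬ, θ s (b + c) = θ s b + θ s c
  smul : ∀ s, ∀ z : ℂ, ∀ b ∈ ℬ, θ s (z • b) = z • θ s b
  mul : ∀ s, ∀ b ∈ ℬ, ∀ c ∈ ℬ, θ s (b * c) = θ s b * θ s c
  star : ∀ s, ∀ b ∈ ℬ, θ s (star b) = star (θ s b)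
  zero : ∀ b ∈ ℬ, θ 0 b = b
  semigroup : ∀ s t, ∀ b ∈ ℬ, θ (s + t) b = θ s (θ t b)
  dilates : ∀ s, ∀ a ∈ 𝒜, compress V (θ s (embed V a)) = semi T s a

end defs

/-! ### The algebraic core -/

/-- six even permutations of four points, as functions -/
def perm : Fin 3 → Fin 2 → Fin 4 → Fin 4 :=
  ![![![1, 2, 0, 3], ![2, 1, 3, 0]], ![![2, 0, 1, 3], ![0, 2, 3, 1]],
    ![![0, 3, 1, 2], ![3, 0, 2, 1]]]

section core

variable {B : Type*} [Ring B] [StarRing B]
  (hz : ∀ b : B, star b * b = 0 → b = 0) (h2 : ∀ b : B, b + b = 0 → b = 0)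
  (e : Fin 4 → Fin 4 → B)
  (he : ∀ i j k l, e i j * e k l = if j = k then e i l else 0)
  (hs : ∀ i j, star (e i j) = e j i)
  (θ : Fin 3 → (B →ₙ+* B)) (hθs : ∀ i b, θ i (star b) = star (θ i b))
  (hθc : ∀ i j b, θ i (θ j b) = θ j (θ i b))
  (hT : ∀ i m l k k' l' m', e m l * θ i (e k k') * e l' m' + e m l * θ i (e k k') * e l' m' =
    ∑ a, if perm i a l = k ∧ perm i a l' = k' then e m m' else 0)

/-- the unit of the corner -/
def pp (e : Fin 4 → Fin 4 → B) : B := ∑ m, e m m

/-- intertwiners -/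
def hh (e : Fin 4 → Fin 4 → B) (θ : Fin 3 → (B →ₙ+* B)) (i : Fin 3) (k l : Fin 4) : B :=
  ∑ m, θ i (e m k) * e l m

/-- basic intertwiners -/
def uu (e : Fin 4 → Fin 4 → B) (θ : Fin 3 → (B →ₙ+* B)) (i : Fin 3) (a : Fin 2) : B :=
  hh e θ i (perm i a 0) 0

/-- intertwiners of the second order -/
def h2' (e : Fin 4 → Fin 4 → B) (θ : Fin 3 → (B →ₙ+* B)) (i j : Fin 3) (k : Fin 4) : B :=
  ∑ m, θ j (θ i (e m k)) * e 0 m

include he in
theorem p_mul (i j : Fin 4) : pp e * e i j = e i j := by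
  unfold pp
  rw [Finset.sum_mul]
  simp [he]

include he in
theorem mul_p (i j : Fin 4) : e i j * pp e = e i j := by
  unfold pp
  rw [Finset.mul_sum]
  simp [he]

include he hs hθs hT in
theorem gram (i : Fin 3) (k l k' l' : Fin 4) :
    star (hh e θ i k l) * hh e θ i k' l' + star (hh e θ i k l) * hh e θ i k' l' =
      ∑ a, if perm i a l = k ∧ perm i a l' = k' then pp e else 0 := by
  have h1 : star (hh e θ i k l) * hh e θ i k' l' =
      ∑ m, e m l * θ i (e k k') * e l' m := by
    unfold hh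
    rw [star_sum, Finset.sum_mul]
    apply Finset.sum_congr rfl
    intro m _
    rw [star_mul, hs, ← hθs, hs, Finset.mul_sum]
    have h3 : ∀ x ∈ (Finset.univ : Finset (Fin 4)),
        e m l * θ i (e k m) * (θ i (e x k') * e l' x) =
          if m = x then e m l * θ i (e k k') * e l' x else 0 := by
      intro x _
      have h4 : e m l * θ i (e k m) * (θ i (e x k') * e l' x) =
          e m l * (θ i (e k m) * θ i (e x k')) * e l' x := by
        simp only [mul_assoc]
      rw [h4, ← map_mul, he]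
      split_ifs
      · rfl
      · rw [map_zero, mul_zero, zero_mul]
    rw [Finset.sum_congr rfl h3, Finset.sum_ite_eq]
    simp
  rw [h1, ← Finset.sum_add_distrib]
  have h5 : ∀ m ∈ (Finset.univ : Finset (Fin 4)),
      e m l * θ i (e k k') * e l' m + e m l * θ i (e k k') * e l' m =
        ∑ a, if perm i a l = k ∧ perm i a l' = k' then e m m else 0 := fun m _ => hT i m l k k' l' m
  rw [Finset.sum_congr rfl h5, Finset.sum_comm]
  apply Finset.sum_congr rfl
  intro a _
  split_ifs
  · rfl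
  · simp

include h2 in
theorem cancel2 {x y : B} (h : x + x = y + y) : x = y := by
  have h3 : (x - y) + (x - y) = 0 := by
    have : (x - y) + (x - y) = (x + x) - (y + y) := by abel
    rw [this, h, sub_self]
  exact sub_eq_zero.mp (h2 _ h3)

include hz h2 he hs hθs hT in
theorem hh_zero (i : Fin 3) (k l : Fin 4) (h : ∀ a, perm i a l ≠ k) : hh e θ i k l = 0 := by
  apply hz
  apply h2
  rw [gram e he hs θ hθs hT]
  apply Finset.sum_eq_zero
  intro a _
  rw [if_neg (fun h' => h a h'.1)]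

theorem perm_unique : ∀ (i : Fin 3) (a a' : Fin 2) (l : Fin 4),
    perm i a' l = perm i a l ↔ a' = a := by decide

include hz h2 he hs hθs hT in
theorem hh_same (i : Fin 3) (a : Fin 2) (l : Fin 4) :
    hh e θ i (perm i a l) l = uu e θ i a := by
  unfold uu
  have hG : ∀ l l' : Fin 4,
      star (hh e θ i (perm i a l) l) * hh e θ i (perm i a l') l' +
        star (hh e θ i (perm i a l) l) * hh e θ i (perm i a l') l' = pp e := by
    intro l l'
    rw [gram e he hs θ hθs hT]
    have h3 : ∀ a' ∈ (Finset.univ : Finset (Fin 2)),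
        (if perm i a' l = perm i a l ∧ perm i a' l' = perm i a l' then pp e else 0) =
          if a' = a then pp e else 0 := by
      intro a' _
      simp only [perm_unique, and_self]
    rw [Finset.sum_congr rfl h3, Finset.sum_ite_eq']
    simp
  rw [← sub_eq_zero]
  apply hz
  apply h2
  have e1 : star (hh e θ i (perm i a l) l - hh e θ i (perm i a 0) 0) *
      (hh e θ i (perm i a l) l - hh e θ i (perm i a 0) 0) +
      star (hh e θ i (perm i a l) l - hh e θ i (perm i a 0) 0) *
      (hh e θ i (perm i a l) l - hh e θ i (perm i a 0) 0) =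
      (star (hh e θ i (perm i a l) l) * hh e θ i (perm i a l) l +
        star (hh e θ i (perm i a l) l) * hh e θ i (perm i a l) l) -
      (star (hh e θ i (perm i a l) l) * hh e θ i (perm i a 0) 0 +
        star (hh e θ i (perm i a l) l) * hh e θ i (perm i a 0) 0) -
      (star (hh e θ i (perm i a 0) 0) * hh e θ i (perm i a l) l +
        star (hh e θ i (perm i a 0) 0) * hh e θ i (perm i a l) l) +
      (star (hh e θ i (perm i a 0) 0) * hh e θ i (perm i a 0) 0 +
        star (hh e θ i (perm i a 0) 0) * hh e θ i (perm i a 0) 0) := by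
    rw [star_sub]
    noncomm_ring
  rw [e1, hG, hG, hG, hG]
  abel

include hz h2 he hs hθs hT in
theorem hh_form (i : Fin 3) (k l : Fin 4) :
    hh e θ i k l = ∑ a, if perm i a l = k then uu e θ i a else 0 := by
  by_cases h : ∃ a, perm i a l = k
  · obtain ⟨a, rfl⟩ := h
    rw [hh_same hz h2 e he hs θ hθs hT]
    have h3 : ∀ a' ∈ (Finset.univ : Finset (Fin 2)),
        (if perm i a' l = perm i a l then uu e θ i a' else 0) =
          if a' = a then uu e θ i a' else 0 := by
      intro a' _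
      simp only [perm_unique]
    rw [Finset.sum_congr rfl h3, Finset.sum_ite_eq']
    simp
  · have h' : ∀ a, perm i a l ≠ k := fun a ha => h ⟨a, ha⟩
    rw [hh_zero hz h2 e he hs θ hθs hT i k l h']
    symm
    apply Finset.sum_eq_zero
    intro a _
    rw [if_neg (h' a)]

include hz h2 he hs hθs hT in
theorem theta_p (i : Fin 3) (n m : Fin 4) : θ i (pp e) * e n m = e n m := by
  symm
  rw [← sub_eq_zero]
  apply hz
  have hpp : pp e * pp e = pp e := by
    have h7 : pp e * pp e = ∑ m, e m m * pp e := by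
      rw [← Finset.sum_mul]
      rfl
    rw [h7]
    simp only [mul_p e he]
    rfl
  have hsp : star (pp e) = pp e := by
    unfold pp
    rw [star_sum]
    simp only [hs]
  have hθθ : θ i (pp e) * θ i (pp e) = θ i (pp e) := by rw [← map_mul, hpp]
  have hsθ : star (θ i (pp e)) = θ i (pp e) := by rw [← hθs, hsp]
  have h3 : star (e n m - θ i (pp e) * e n m) * (e n m - θ i (pp e) * e n m) =
      e m m - e m n * θ i (pp e) * e n m := by
    have h5 : star (e n m - θ i (pp e) * e n m) = e m n - e m n * θ i (pp e) := by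
      rw [star_sub, star_mul, hs, hsθ]
    have h4 : (e m n - e m n * θ i (pp e)) * (e n m - θ i (pp e) * e n m) =
      e m n * e n m - e m n * θ i (pp e) * e n m - e m n * θ i (pp e) * e n m +
        e m n * (θ i (pp e) * θ i (pp e)) * e n m := by noncomm_ring
    rw [h5, h4, hθθ, he, if_pos rfl]
    abel
  rw [h3, sub_eq_zero]
  apply cancel2 h2
  have h6 : e m n * θ i (pp e) * e n m + e m n * θ i (pp e) * e n m =
      ∑ k, (e m n * θ i (e k k) * e n m + e m n * θ i (e k k) * e n m) := by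
    rw [Finset.sum_add_distrib]
    have : e m n * θ i (pp e) * e n m = ∑ k, e m n * θ i (e k k) * e n m := by
      rw [pp, map_sum, Finset.mul_sum, Finset.sum_mul]
    rw [this]
  rw [h6]
  simp only [hT, and_self]
  rw [Finset.sum_comm]
  simp only [Finset.sum_ite_eq, Finset.mem_univ, if_true, Fin.sum_univ_two]

include hz h2 he hs hθs hT in
theorem comp_form (i j : Fin 3) (k : Fin 4) :
    h2' e θ i j k = ∑ l, θ j (hh e θ i k l) * hh e θ j l 0 := by
  have h1 : ∀ l ∈ (Finset.univ : Finset (Fin 4)), θ j (hh e θ i k l) * hh e θ j l 0 =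
      ∑ m, θ j (θ i (e m k)) * (θ j (e l l) * e 0 m) := by
    intro l _
    unfold hh
    rw [map_sum, Finset.sum_mul]
    apply Finset.sum_congr rfl
    intro m _
    rw [map_mul, Finset.mul_sum]
    have h3 : ∀ x ∈ (Finset.univ : Finset (Fin 4)),
        θ j (θ i (e m k)) * θ j (e l m) * (θ j (e x l) * e 0 x) =
          if m = x then θ j (θ i (e m k)) * (θ j (e l l) * e 0 x) else 0 := by
      intro x _
      have h4 : θ j (θ i (e m k)) * θ j (e l m) * (θ j (e x l) * e 0 x) =
          θ j (θ i (e m k)) * ((θ j (e l m) * θ j (e x l)) * e 0 x) := by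
        simp only [mul_assoc]
      rw [h4, ← map_mul, he]
      split_ifs
      · rfl
      · rw [map_zero, zero_mul, mul_zero]
    rw [Finset.sum_congr rfl h3, Finset.sum_ite_eq]
    simp
  rw [Finset.sum_congr rfl h1, Finset.sum_comm]
  unfold h2'
  apply Finset.sum_congr rfl
  intro m _
  rw [← Finset.mul_sum, ← Finset.sum_mul, ← map_sum]
  have h5 := theta_p hz h2 e he hs θ hθs hT j 0 m
  rw [pp] at h5
  rw [h5]

theorem perm_pair : ∀ (i j : Fin 3) (a a' b b' : Fin 2), i ≠ j →
    (perm i a' (perm j b' 0) = perm i a (perm j b 0) ↔ (b' = b ∧ a' = a)) := by decide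

include hz h2 he hs hθs hT in
theorem prod_form (i j : Fin 3) (hij : i ≠ j) (a b : Fin 2) :
    θ j (uu e θ i a) * uu e θ j b = h2' e θ i j (perm i a (perm j b 0)) := by
  rw [comp_form hz h2 e he hs θ hθs hT]
  have h1 : ∀ l ∈ (Finset.univ : Finset (Fin 4)),
      θ j (hh e θ i (perm i a (perm j b 0)) l) * hh e θ j l 0 =
      ∑ b', if perm j b' 0 = l then
        (∑ a', if perm i a' l = perm i a (perm j b 0) then θ j (uu e θ i a') else 0) *
          uu e θ j b' else 0 := by
    intro l _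
    rw [hh_form hz h2 e he hs θ hθs hT j l 0, hh_form hz h2 e he hs θ hθs hT i _ l,
      Finset.mul_sum, map_sum]
    apply Finset.sum_congr rfl
    intro b' _
    split_ifs with h
    · congr 1
      apply Finset.sum_congr rfl
      intro a' _
      split_ifs
      · rfl
      · rw [map_zero]
    · rw [mul_zero]
  rw [Finset.sum_congr rfl h1, Finset.sum_comm]
  simp only [Finset.sum_ite_eq, Finset.mem_univ, if_true]
  have h2 : ∀ b' ∈ (Finset.univ : Finset (Fin 2)),
      (∑ a', if perm i a' (perm j b' 0) = perm i a (perm j b 0) then θ j (uu e θ i a') else 0) *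
          uu e θ j b' = if b' = b then θ j (uu e θ i a) * uu e θ j b' else 0 := by
    intro b' _
    simp only [perm_pair i j _ _ _ _ hij]
    split_ifs with h
    · subst h
      simp
    · simp [h]
  rw [Finset.sum_congr rfl h2]
  simp

include hz h2 he hs hθs hθc hT in
theorem swap (i j : Fin 3) (hij : i ≠ j) (a b a' b' : Fin 2)
    (h : perm i a (perm j b 0) = perm j b' (perm i a' 0)) :
    θ j (uu e θ i a) * uu e θ j b = θ i (uu e θ j b') * uu e θ i a' := by
  rw [prod_form hz h2 e he hs θ hθs hT i j hij, prod_form hz h2 e he hs θ hθs hT j i hij.symm, h]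
  unfold h2'
  apply Finset.sum_congr rfl
  intro m _
  rw [hθc]

include he hs hθs hT in
theorem uu_gram (i : Fin 3) (a b : Fin 2) :
    star (uu e θ i a) * uu e θ i b + star (uu e θ i a) * uu e θ i b =
      if a = b then pp e else 0 := by
  unfold uu
  rw [gram e he hs θ hθs hT]
  simp only [perm_unique]
  fin_cases a <;> fin_cases b <;> simp

include he in
theorem theta_uu (i : Fin 3) (a : Fin 2) : θ i (pp e) * uu e θ i a = uu e θ i a := by
  unfold uu hh
  rw [Finset.mul_sum]
  apply Finset.sum_congr rfl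
  intro m _
  rw [← mul_assoc, ← map_mul, p_mul e he]

include hz h2 he hs hθs hθc hT in
/-- the algebraic core: the corner vanishes -/
theorem core : pp e = 0 := by
  have sw := swap hz h2 e he hs θ hθs hθc hT
  have loop : θ 2 (θ 1 (uu e θ 0 0) * uu e θ 1 0) * uu e θ 2 0 =
      θ 2 (θ 1 (uu e θ 0 1) * uu e θ 1 0) * uu e θ 2 1 := by
    calc θ 2 (θ 1 (uu e θ 0 0) * uu e θ 1 0) * uu e θ 2 0
        = θ 2 (θ 0 (uu e θ 1 0) * uu e θ 0 0) * uu e θ 2 0 := by
          rw [sw 0 1 (by decide) 0 0 0 0 (by decide)]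
      _ = θ 0 (θ 2 (uu e θ 1 0)) * (θ 2 (uu e θ 0 0) * uu e θ 2 0) := by
          rw [map_mul, mul_assoc, hθc 2 0]
      _ = θ 0 (θ 2 (uu e θ 1 0)) * (θ 0 (uu e θ 2 0) * uu e θ 0 1) := by
          rw [sw 0 2 (by decide) 0 0 1 0 (by decide)]
      _ = θ 0 (θ 2 (uu e θ 1 0) * uu e θ 2 0) * uu e θ 0 1 := by
          rw [map_mul, mul_assoc]
      _ = θ 0 (θ 1 (uu e θ 2 1) * uu e θ 1 0) * uu e θ 0 1 := by
          rw [sw 1 2 (by decide) 0 0 0 1 (by decide)]
      _ = θ 1 (θ 0 (uu e θ 2 1)) * (θ 0 (uu e θ 1 0) * uu e θ 0 1) := by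
          rw [map_mul, mul_assoc, hθc 0 1]
      _ = θ 1 (θ 0 (uu e θ 2 1)) * (θ 1 (uu e θ 0 0) * uu e θ 1 1) := by
          rw [sw 1 0 (by decide) 0 1 1 0 (by decide)]
      _ = θ 1 (θ 0 (uu e θ 2 1) * uu e θ 0 0) * uu e θ 1 1 := by
          rw [map_mul, mul_assoc]
      _ = θ 1 (θ 2 (uu e θ 0 1) * uu e θ 2 1) * uu e θ 1 1 := by
          rw [sw 2 0 (by decide) 1 0 1 1 (by decide)]
      _ = θ 2 (θ 1 (uu e θ 0 1)) * (θ 1 (uu e θ 2 1) * uu e θ 1 1) := by
          rw [map_mul, mul_assoc, hθc 1 2]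
      _ = θ 2 (θ 1 (uu e θ 0 1)) * (θ 2 (uu e θ 1 0) * uu e θ 2 1) := by
          rw [sw 2 1 (by decide) 1 1 1 0 (by decide)]
      _ = θ 2 (θ 1 (uu e θ 0 1) * uu e θ 1 0) * uu e θ 2 1 := by
          rw [map_mul, mul_assoc]
  have inner : ∀ (a b : Fin 2) (c d : Fin 2) (f g : Fin 2),
      star (θ 2 (θ 1 (uu e θ 0 a) * uu e θ 1 c) * uu e θ 2 f) *
        (θ 2 (θ 1 (uu e θ 0 b) * uu e θ 1 d) * uu e θ 2 g) =
      star (uu e θ 2 f) * θ 2 (star (uu e θ 1 c) *
        θ 1 (star (uu e θ 0 a) * uu e θ 0 b) * uu e θ 1 d) * uu e θ 2 g := by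
    intro a b c d f g
    rw [star_mul, ← hθs, star_mul, ← hθs]
    simp only [map_mul, mul_assoc]
  have h01 : star (uu e θ 0 0) * uu e θ 0 1 = 0 := by
    apply h2
    rw [uu_gram e he hs θ hθs hT]
    simp
  have hzero : star (θ 2 (θ 1 (uu e θ 0 0) * uu e θ 1 0) * uu e θ 2 0) *
      (θ 2 (θ 1 (uu e θ 0 0) * uu e θ 1 0) * uu e θ 2 0) = 0 := by
    conv_lhs => rw [show (θ 2 (θ 1 (uu e θ 0 0) * uu e θ 1 0) * uu e θ 2 0) =
      (θ 2 (θ 1 (uu e θ 0 0) * uu e θ 1 0) * uu e θ 2 0) from rfl]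
    nth_rewrite 2 [loop]
    rw [inner, h01]
    simp
  rw [inner] at hzero
  have d0 := uu_gram e he hs θ hθs hT 0 0 0
  have d1 := uu_gram e he hs θ hθs hT 1 0 0
  have d2 := uu_gram e he hs θ hθs hT 2 0 0
  rw [if_pos rfl] at d0 d1 d2
  obtain ⟨A, hA⟩ : ∃ A, A = star (uu e θ 0 0) * uu e θ 0 0 := ⟨_, rfl⟩
  rw [← hA] at hzero d0
  have s1 : star (uu e θ 1 0) * θ 1 A * uu e θ 1 0 + star (uu e θ 1 0) * θ 1 A * uu e θ 1 0 =
      star (uu e θ 1 0) * uu e θ 1 0 := by
    rw [← add_mul, ← mul_add, ← map_add, d0, mul_assoc, theta_uu e he θ]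
  obtain ⟨A1, hA1⟩ : ∃ A1, A1 = star (uu e θ 1 0) * θ 1 A * uu e θ 1 0 := ⟨_, rfl⟩
  rw [← hA1] at hzero s1
  have s2 : (A1 + A1) + (A1 + A1) = pp e := by rw [s1, d1]
  have s3 : star (uu e θ 2 0) * θ 2 ((A1 + A1) + (A1 + A1)) * uu e θ 2 0 = 0 := by
    simp only [map_add, mul_add, add_mul, hzero, add_zero]
  rw [s2, mul_assoc, theta_uu e he θ] at s3
  rw [← d2, s3, add_zero]

end core

/-! ### The maps -/

/-- `ℂ⁴` -/
abbrev H4 : Type := EuclideanSpace ℂ (Fin 4)

/-- permutation matrices -/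
def pm (f : Fin 4 → Fin 4) : Matrix (Fin 4) (Fin 4) ℂ :=
  Matrix.of fun r c => if f c = r then 1 else 0

theorem pm_mul (f g : Fin 4 → Fin 4) : pm f * pm g = pm (f ∘ g) := by
  ext r c
  simp [pm, Matrix.mul_apply]

theorem pm_star_mul (f : Fin 4 → Fin 4) (hf : Function.Injective f) : star (pm f) * pm f = 1 := by
  ext r c
  rw [Matrix.star_eq_conjTranspose, Matrix.mul_apply, Matrix.one_apply]
  simp only [pm, Matrix.conjTranspose_apply, Matrix.of_apply, apply_ite star, star_one, star_zero,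
    ite_mul, one_mul, zero_mul]
  rw [Finset.sum_ite_eq]
  simp only [Finset.mem_univ, if_true, hf.eq_iff]
  by_cases h : r = c
  · simp [h]
  · rw [if_neg (fun h' => h h'.symm), if_neg h]

/-- matrices as operators -/
noncomputable def op : Matrix (Fin 4) (Fin 4) ℂ ≃⋆ₐ[ℂ] (H4 →L[ℂ] H4) :=
  Matrix.toEuclideanCLM (n := Fin 4) (𝕜 := ℂ)

/-- the unitaries -/
noncomputable def U (i : Fin 3) (k : Fin 2) : H4 →L[ℂ] H4 := op (pm (perm i k))

/-- the three unital completely positive maps on `B(ℂ⁴)` -/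
noncomputable def TT (i : Fin 3) (a : H4 →L[ℂ] H4) : H4 →L[ℂ] H4 :=
  (1 / 2 : ℂ) • ∑ k : Fin 2, star (U i k) * a * U i k

theorem perm_inj : ∀ (i : Fin 3) (k : Fin 2), Function.Injective (perm i k) := by decide

theorem U_star_mul (i : Fin 3) (k : Fin 2) : star (U i k) * U i k = 1 := by
  unfold U
  rw [← map_star, ← map_mul, pm_star_mul _ (perm_inj i k), map_one]

theorem U_isometry (i : Fin 3) (k : Fin 2) (x : H4) : ‖U i k x‖ = ‖x‖ := by
  have h1 : ⟪U i k x, U i k x⟫_ℂ = ⟪x, x⟫_ℂ := by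
    have h2 : ⟪U i k x, U i k x⟫_ℂ = ⟪x, (star (U i k) * U i k) x⟫_ℂ := by
      rw [ContinuousLinearMap.star_eq_adjoint]
      exact (ContinuousLinearMap.adjoint_inner_right (U i k) x (U i k x)).symm
    rw [h2, U_star_mul]
    rfl
  rw [inner_self_eq_norm_sq_to_K, inner_self_eq_norm_sq_to_K] at h1
  have h3 : ‖U i k x‖ ^ 2 = ‖x‖ ^ 2 := by exact_mod_cast h1
  exact (sq_eq_sq₀ (norm_nonneg _) (norm_nonneg _)).mp h3

theorem norm_U_le (i : Fin 3) (k : Fin 2) : ‖U i k‖ ≤ 1 :=
  ContinuousLinearMap.opNorm_le_bound _ zero_le_one (fun x => by rw [U_isometry, one_mul])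

theorem TT_one (i : Fin 3) : TT i 1 = 1 := by
  unfold TT
  simp only [mul_one, U_star_mul, Fin.sum_univ_two]
  rw [← two_smul ℂ (1 : H4 →L[ℂ] H4), smul_smul]
  norm_num

theorem TT_comm_aux (i j : Fin 3) (a : H4 →L[ℂ] H4) : TT i (TT j a) =
    (1 / 4 : ℂ) • ∑ k : Fin 2, ∑ l : Fin 2, star (U j l * U i k) * a * (U j l * U i k) := by
  unfold TT
  simp only [Fin.sum_univ_two, star_mul, mul_smul_comm, smul_mul_assoc, mul_add, add_mul,
    smul_add, smul_smul, mul_assoc]
  norm_num

theorem U_mul (i j : Fin 3) (k l : Fin 2) : U i k * U j l = op (pm (perm i k ∘ perm j l)) := by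
  unfold U
  rw [← map_mul, pm_mul]

theorem perm_comm : ∀ i j : Fin 3,
    (Finset.univ : Finset (Fin 2 × Fin 2)).val.map (fun q => perm j q.2 ∘ perm i q.1) =
      (Finset.univ : Finset (Fin 2 × Fin 2)).val.map (fun q => perm i q.2 ∘ perm j q.1) := by
  decide

theorem TT_comm_aux2 (i j : Fin 3) (a : H4 →L[ℂ] H4) : TT i (TT j a) =
    (1 / 4 : ℂ) • (((Finset.univ : Finset (Fin 2 × Fin 2)).val.map
      (fun q => perm j q.2 ∘ perm i q.1)).map
        (fun f => star (op (pm f)) * a * op (pm f))).sum := by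
  rw [TT_comm_aux, Multiset.map_map]
  have h1 : ∑ k : Fin 2, ∑ l : Fin 2, star (U j l * U i k) * a * (U j l * U i k) =
      ∑ q : Fin 2 × Fin 2, star (op (pm (perm j q.2 ∘ perm i q.1))) * a *
        op (pm (perm j q.2 ∘ perm i q.1)) := by
    rw [Fintype.sum_prod_type]
    simp only [U_mul]
  rw [h1]
  rfl

theorem TT_comm (i j : Fin 3) (a : H4 →L[ℂ] H4) : TT i (TT j a) = TT j (TT i a) := by
  rw [TT_comm_aux2, TT_comm_aux2, perm_comm]

theorem inner_TT (i : Fin 3) (x y : H4) (a : H4 →L[ℂ] H4) : ⟪x, TT i a y⟫_ℂ =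
    (1 / 2 : ℂ) * ∑ k : Fin 2, ⟪U i k x, a (U i k y)⟫_ℂ := by
  unfold TT
  rw [smul_apply, inner_smul_right, sum_apply, inner_sum]
  congr 1
  apply Finset.sum_congr rfl
  intro k _
  rw [ContinuousLinearMap.star_eq_adjoint]
  exact ContinuousLinearMap.adjoint_inner_right (U i k) x (a (U i k y))

theorem TT_ucp (i : Fin 3) : IsUnitalNormalCP (allOps H4) (TT i) where
  maps := fun _ _ => trivial
  add := by
    intro a _ b _
    unfold TT
    simp only [mul_add, add_mul, Finset.sum_add_distrib, smul_add]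
  smul := by
    intro c a _
    unfold TT
    simp only [mul_smul_comm, smul_mul_assoc, ← Finset.smul_sum]
    rw [smul_comm]
  one := TT_one i
  contractive := by
    intro a _
    unfold TT
    rw [norm_smul]
    have h1 : ‖∑ k : Fin 2, star (U i k) * a * U i k‖ ≤ ∑ k : Fin 2, ‖a‖ := by
      refine (norm_sum_le _ _).trans (Finset.sum_le_sum fun k _ => ?_)
      have h2 : ‖star (U i k)‖ ≤ 1 := by
        rw [ContinuousLinearMap.star_eq_adjoint]
        exact (LinearIsometryEquiv.norm_map _ _).trans_le (norm_U_le i k)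
      calc ‖star (U i k) * a * U i k‖ ≤ ‖star (U i k) * a‖ * ‖U i k‖ := norm_mul_le _ _
        _ ≤ (‖star (U i k)‖ * ‖a‖) * ‖U i k‖ :=
            mul_le_mul_of_nonneg_right (norm_mul_le _ _) (norm_nonneg _)
        _ ≤ (1 * ‖a‖) * 1 := by
            apply mul_le_mul _ (norm_U_le i k) (norm_nonneg _)
              (mul_nonneg zero_le_one (norm_nonneg _))
            exact mul_le_mul_of_nonneg_right h2 (norm_nonneg _)
        _ = ‖a‖ := by ring
    simp only [Fin.sum_univ_two] at h1 ⊢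
    have h3 : ‖(1 / 2 : ℂ)‖ = 1 / 2 := by simp
    rw [h3]
    linarith
  cp := by
    intro n a _ x
    have h0 : ∀ (i' j : Fin n), ⟪x i', TT i (star (a i') * a j) (x j)⟫_ℂ =
        ∑ k : Fin 2, (1 / 2 : ℂ) * ⟪a i' (U i k (x i')), a j (U i k (x j))⟫_ℂ := by
      intro i' j
      rw [inner_TT, Finset.mul_sum]
      apply Finset.sum_congr rfl
      intro k _
      congr 1
      rw [ContinuousLinearMap.star_eq_adjoint]
      exact ContinuousLinearMap.adjoint_inner_right (a i') (U i k (x i')) (a j (U i k (x j)))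
    have h1 : ∑ i', ∑ j, ⟪x i', TT i (star (a i') * a j) (x j)⟫_ℂ =
        ∑ k : Fin 2, (1 / 2 : ℂ) *
          ⟪∑ i', a i' (U i k (x i')), ∑ j, a j (U i k (x j))⟫_ℂ := by
      simp only [h0]
      have h2 : ∀ i' : Fin n, ∑ j, ∑ k : Fin 2,
          (1 / 2 : ℂ) * ⟪a i' (U i k (x i')), a j (U i k (x j))⟫_ℂ =
          ∑ k : Fin 2, ∑ j, (1 / 2 : ℂ) * ⟪a i' (U i k (x i')), a j (U i k (x j))⟫_ℂ :=
        fun i' => Finset.sum_comm
      rw [Finset.sum_congr rfl (fun i' _ => h2 i'), Finset.sum_comm]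
      apply Finset.sum_congr rfl
      intro k _
      rw [sum_inner, Finset.mul_sum]
      apply Finset.sum_congr rfl
      intro i' _
      rw [inner_sum, Finset.mul_sum]
    rw [h1]
    apply Finset.sum_nonneg
    intro k _
    rw [inner_self_eq_norm_sq_to_K]
    have h3 : (1 / 2 : ℂ) * (((‖∑ i', a i' (U i k (x i'))‖ : ℝ) : ℂ)) ^ 2 =
        ((1 / 2 * ‖∑ i', a i' (U i k (x i'))‖ ^ 2 : ℝ) : ℂ) := by
      push_cast
      ring
    have h4 : (0 : ℂ) ≤ ((1 / 2 * ‖∑ i', a i' (U i k (x i'))‖ ^ 2 : ℝ) : ℂ) :=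
      Complex.zero_le_real.mpr (by positivity)
    rw [← h3] at h4
    exact h4
  normal := by
    intro x y
    refine ⟨fun n => if h : n < 2 then (1 / 2 : ℂ) • U i ⟨n, h⟩ x else 0,
      fun n => if h : n < 2 then U i ⟨n, h⟩ y else 0, ?_, ?_, ?_⟩
    · apply summable_of_ne_finset_zero (s := Finset.range 2)
      intro n hn
      rw [Finset.mem_range] at hn
      simp [hn]
    · apply summable_of_ne_finset_zero (s := Finset.range 2)
      intro n hn
      rw [Finset.mem_range] at hn
      simp [hn]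
    · intro a _
      rw [inner_TT]
      have h1 : (1 / 2 : ℂ) * ∑ k : Fin 2, ⟪U i k x, a (U i k y)⟫_ℂ =
          ∑ n ∈ Finset.range 2, ⟪(if h : n < 2 then (1 / 2 : ℂ) • U i ⟨n, h⟩ x else 0),
            a (if h : n < 2 then U i ⟨n, h⟩ y else 0)⟫_ℂ := by
        rw [Finset.sum_range_succ, Finset.sum_range_one, Fin.sum_univ_two]
        simp
        ring
      rw [h1]
      apply hasSum_sum_of_ne_finset_zero
      intro n hn
      rw [Finset.mem_range] at hn
      simp [hn]

/-- matrix units -/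
noncomputable def E (i j : Fin 4) : H4 →L[ℂ] H4 := op (Matrix.single i j 1)

theorem E_mul (i j k l : Fin 4) : E i j * E k l = if j = k then E i l else 0 := by
  unfold E
  rw [← map_mul]
  split_ifs with h
  · subst h
    rw [Matrix.single_mul_single_same, mul_one]
  · rw [Matrix.single_mul_single_of_ne (h := h), map_zero]

theorem E_star (i j : Fin 4) : star (E i j) = E j i := by
  unfold E
  rw [← map_star, Matrix.star_eq_conjTranspose, Matrix.conjTranspose_single, star_one]

theorem E_sum : ∑ i, E i i = 1 := by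
  unfold E
  rw [← map_sum, ← map_one op]
  congr 1
  ext r c
  rw [Matrix.sum_apply, Matrix.one_apply]
  simp only [Matrix.single_apply]
  fin_cases r <;> fin_cases c <;> simp

theorem E_TT (i : Fin 3) (m l k k' l' m' : Fin 4) :
    E m l * TT i (E k k') * E l' m' + E m l * TT i (E k k') * E l' m' =
      ∑ a, if perm i a l = k ∧ perm i a l' = k' then E m m' else 0 := by
  have h1 : ∀ a : Fin 2, E m l * (star (U i a) * E k k' * U i a) * E l' m' =
      if perm i a l = k ∧ perm i a l' = k' then E m m' else 0 := by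
    intro a
    have h2 : E m l * (star (U i a) * E k k' * U i a) * E l' m' =
        op (Matrix.single m l 1 * (star (pm (perm i a)) * Matrix.single k k' 1 * pm (perm i a)) *
          Matrix.single l' m' 1) := by
      unfold E U
      simp only [map_mul, map_star]
    rw [h2, Matrix.single_mul_mul_single]
    have h3 : (star (pm (perm i a)) * Matrix.single k k' 1 * pm (perm i a) :
        Matrix (Fin 4) (Fin 4) ℂ) l l' =
        if perm i a l = k ∧ perm i a l' = k' then 1 else 0 := by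
      rw [Matrix.mul_apply, Finset.sum_eq_single k']
      · rw [Matrix.mul_single_apply_same, Matrix.star_eq_conjTranspose,
          Matrix.conjTranspose_apply]
        simp only [pm, Matrix.of_apply, mul_one]
        by_cases h5 : perm i a l = k <;> by_cases h6 : perm i a l' = k' <;> simp [h5, h6]
      · intro r _ hr
        rw [Matrix.mul_single_apply_of_ne _ _ _ _ _ hr, zero_mul]
      · intro h
        exact absurd (Finset.mem_univ _) h
    rw [h3]
    unfold E
    split_ifs
    · simp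
    · simp
  have h4 : E m l * TT i (E k k') * E l' m' =
      (1 / 2 : ℂ) • ∑ a, if perm i a l = k ∧ perm i a l' = k' then E m m' else 0 := by
    unfold TT
    rw [mul_smul_comm, smul_mul_assoc, Finset.mul_sum, Finset.sum_mul]
    congr 1
    exact Finset.sum_congr rfl fun a _ => h1 a
  rw [h4, ← two_smul ℂ, smul_smul]
  norm_num

/-! ### No dilation -/

section nodil

variable {H K : Type*} [NormedAddCommGroup H] [InnerProductSpace ℂ H] [CompleteSpace H]
  [NormedAddCommGroup K] [InnerProductSpace ℂ K] [CompleteSpace K] (V : H →ₗᵢ[ℂ] K)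

theorem adj_comp : (ContinuousLinearMap.adjoint V.toContinuousLinearMap) ∘L
    V.toContinuousLinearMap = 1 := by
  ext x
  apply ext_inner_left ℂ
  intro y
  rw [ContinuousLinearMap.comp_apply, ContinuousLinearMap.adjoint_inner_right]
  exact V.inner_map_map y x

theorem embed_mul (a b : H →L[ℂ] H) : embed V a * embed V b = embed V (a * b) := by
  ext x
  have h := adj_comp V
  have h' : ∀ y, (ContinuousLinearMap.adjoint V.toContinuousLinearMap)
      (V.toContinuousLinearMap y) = y := fun y => by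
    have := congrArg (fun f => f y) h
    exact this
  simp only [embed, mul_apply_eq_comp, ContinuousLinearMap.comp_apply, h']

theorem embed_star (a : H →L[ℂ] H) : star (embed V a) = embed V (star a) := by
  unfold embed
  rw [ContinuousLinearMap.star_eq_adjoint, ContinuousLinearMap.star_eq_adjoint,
    ContinuousLinearMap.adjoint_comp, ContinuousLinearMap.adjoint_comp,
    ContinuousLinearMap.adjoint_adjoint]
  rfl

theorem embed_sandwich (a b : H →L[ℂ] H) (x : K →L[ℂ] K) :
    embed V a * x * embed V b = embed V (a * compress V x * b) := rfl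

theorem compress_embed (a : H →L[ℂ] H) : compress V (embed V a) = a := by
  ext x
  have h := adj_comp V
  have h' : ∀ y, (ContinuousLinearMap.adjoint V.toContinuousLinearMap)
      (V.toContinuousLinearMap y) = y := fun y => by
    have := congrArg (fun f => f y) h
    exact this
  simp only [embed, compress, ContinuousLinearMap.comp_apply, h']

theorem embed_add (a b : H →L[ℂ] H) : embed V (a + b) = embed V a + embed V b := by
  ext x
  simp [embed]

theorem embed_zero : embed V (0 : H →L[ℂ] H) = 0 := by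
  ext x
  simp [embed]

end nodil

theorem semi_single (i : Fin 3) (a : H4 →L[ℂ] H4) : semi TT (Pi.single i 1) a = TT i a := by
  fin_cases i <;> simp [semi]

theorem no_dilation {K : Type*} [NormedAddCommGroup K] [InnerProductSpace ℂ K] [CompleteSpace K]
    (V : H4 →ₗᵢ[ℂ] K) (ℬ : VonNeumannAlgebra K)
    (θ : (Fin 3 → ℕ) → (K →L[ℂ] K) → (K →L[ℂ] K)) : ¬ IsDilation (allOps H4) TT V ℬ θ := by
  intro hD
  have hz : ∀ b : ℬ.toStarSubalgebra, star b * b = 0 → b = 0 := by
    intro b hb
    apply Subtype.ext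
    have h1 : star (b : K →L[ℂ] K) * (b : K →L[ℂ] K) = 0 := congrArg Subtype.val hb
    exact (CStarRing.star_mul_self_eq_zero_iff _).mp h1
  have h2 : ∀ b : ℬ.toStarSubalgebra, b + b = 0 → b = 0 := by
    intro b hb
    rw [← two_smul ℂ b] at hb
    exact (smul_eq_zero.mp hb).resolve_left two_ne_zero
  have hcor : ∀ a, embed V a ∈ ℬ.toStarSubalgebra := fun a => hD.corner₁ a trivial
  let e : Fin 4 → Fin 4 → ℬ.toStarSubalgebra := fun i j => ⟨embed V (E i j), hcor _⟩
  let θ' : Fin 3 → (ℬ.toStarSubalgebra →ₙ+* ℬ.toStarSubalgebra) := fun i =>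
    { toFun := fun b => ⟨θ (Pi.single i 1) b, hD.maps _ b b.2⟩
      map_mul' := fun b c => Subtype.ext (hD.mul _ b b.2 c c.2)
      map_add' := fun b c => Subtype.ext (hD.add _ b b.2 c c.2)
      map_zero' := by
        apply Subtype.ext
        have h := hD.smul (Pi.single i 1) 0 0 (zero_mem ℬ)
        rw [zero_smul, zero_smul] at h
        exact h }
  have hcore := core (B := ℬ.toStarSubalgebra) hz h2 e ?_ ?_ θ' ?_ ?_ ?_
  · have h3 : ((pp e : ℬ.toStarSubalgebra) : K →L[ℂ] K) = embed V 1 := by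
      rw [← E_sum]
      simp only [pp, e, Fin.sum_univ_four, embed_add]
      rfl
    rw [hcore] at h3
    have h4 : compress V (embed V 1) = (1 : H4 →L[ℂ] H4) := compress_embed V 1
    rw [← h3] at h4
    have h5 : compress V ((0 : ℬ.toStarSubalgebra) : K →L[ℂ] K) = 0 := by
      ext x
      simp [compress]
    rw [h5] at h4
    exact zero_ne_one h4
  · intro i j k l
    apply Subtype.ext
    show embed V (E i j) * embed V (E k l) = _
    rw [embed_mul, E_mul]
    split_ifs
    · rfl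
    · exact embed_zero V
  · intro i j
    apply Subtype.ext
    show star (embed V (E i j)) = embed V (E j i)
    rw [embed_star, E_star]
  · intro i b
    exact Subtype.ext (hD.star _ b b.2)
  · intro i j b
    apply Subtype.ext
    show θ (Pi.single i 1) (θ (Pi.single j 1) b) = θ (Pi.single j 1) (θ (Pi.single i 1) b)
    rw [← hD.semigroup _ _ _ b.2, ← hD.semigroup _ _ _ b.2, add_comm]
  · intro i m l k k' l' m'
    apply Subtype.ext
    show embed V (E m l) * θ (Pi.single i 1) (embed V (E k k')) * embed V (E l' m') +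
      embed V (E m l) * θ (Pi.single i 1) (embed V (E k k')) * embed V (E l' m') = _
    rw [embed_sandwich, hD.dilates _ _ trivial, semi_single, ← embed_add, E_TT]
    simp only [Fin.sum_univ_two]
    split_ifs <;> simp [embed_add, embed_zero, e]

/-- There are three commuting unital normal completely positive maps on the von Neumann algebra of
all operators on `ℂ⁴` whose semigroup over `ℕ³` has no dilation whatsoever: for every Hilbert space
`K`, every isometry `V : ℂ⁴ → K`, every von Neumann algebra `ℬ` on `K` and every family `θ`,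
`(V V*, K, ℬ, θ)` is not a dilation. -/
theorem result.{u} : ∃ T : Fin 3 → (EuclideanSpace ℂ (Fin 4) →L[ℂ] EuclideanSpace ℂ (Fin 4)) →
      (EuclideanSpace ℂ (Fin 4) →L[ℂ] EuclideanSpace ℂ (Fin 4)),
    (∀ i, IsUnitalNormalCP (allOps (EuclideanSpace ℂ (Fin 4))) (T i)) ∧
    (∀ i j a, T i (T j a) = T j (T i a)) ∧
    ∀ (K : Type u) [NormedAddCommGroup K] [InnerProductSpace ℂ K] [CompleteSpace K]
      (V : EuclideanSpace ℂ (Fin 4) →ₗᵢ[ℂ] K) (ℬ : VonNeumannAlgebra K)
      (θ : (Fin 3 → ℕ) → (K →L[ℂ] K) → (K →L[ℂ] K)),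
      ¬ IsDilation (allOps (EuclideanSpace ℂ (Fin 4))) T V ℬ θ :=
  ⟨TT, TT_ucp, TT_comm, fun _ _ _ _ V ℬ θ => no_dilation V ℬ θ⟩

end Pool.Agent.Results.MP_0a86e9_an.NoDilation
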